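import Mathlib
import Pool.Agent.H100R2.MH.Main
import Pool.Agent.H100R2.MH.P.T02
import Pool.Agent.H100R2.MH.P.T25
import Pool.Agent.H100R2.MH.P.T26
import Pool.Agent.H100R2.MH.P.T27
import Pool.Agent.H100R2.MH.P.T37

set_option autoImplicit false

/-!
# Haar integral on compact Moufang loops: generation by subgroups and the non-singularity criterion

Definitions used in the statement:
* `HasInvariantIntegral`, `ClosedSubloop` : `Pool/Agent/H100R2/MH/Defs.lean`
* `NonsingularGen` : `Pool/Agent/H100R2/MH/Stubs2.lean`
* `HaarClass` : below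
-/

namespace Pool.Agent.Results.MP_fd6bc6_al.GeneratedComponent

open Pool.Agent.H100R2.MH
open Pool.Agent.Helper974.Moufang (IsMoufang comp_mul comp_inv)

universe u

/-- The smallest class of closed subloops of the topological loop `L` which
* contains the closed associative subloops (= closed subgroups),
* contains every closed subloop `H` with `NonsingularGen`: there is a probability on `H` such that the
  elements of `H` whose left translation is not singular for it generate `H`,
* contains every closed subloop generated by countably many members of the class,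
* contains every closed subloop in which the union of an upward directed family of members of the class
  is dense. -/
inductive HaarClass {L : Type u} [TopologicalSpace L] (mul ldiv : L → L → L) (e : L) : Set L → Prop
  | subgroup (H : Set L) (hH : ClosedSubloop mul ldiv e H)
      (hass : ∀ x ∈ H, ∀ y ∈ H, ∀ z ∈ H, mul (mul x y) z = mul x (mul y z)) : HaarClass mul ldiv e H
  | nonsingular (H : Set L) (hH : ClosedSubloop mul ldiv e H) (hn : NonsingularGen mul e H) :
      HaarClass mul ldiv e H
  | generated (H : Set L) (hH : ClosedSubloop mul ldiv e H) (E : ℕ → Set L)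
      (hE : ∀ j, HaarClass mul ldiv e (E j)) (hEH : ∀ j, E j ⊆ H)
      (hgen : ∀ A : Set L, (∀ j, E j ⊆ A) → (∀ x ∈ A, ∀ y ∈ A, mul x y ∈ A) → H ⊆ A) :
      HaarClass mul ldiv e H
  | directed (H : Set L) (hH : ClosedSubloop mul ldiv e H) (𝒢 : Set (Set L)) (hne : 𝒢.Nonempty)
      (hdir : DirectedOn (· ⊆ ·) 𝒢) (h𝒢 : ∀ G ∈ 𝒢, HaarClass mul ldiv e G) (hGH : ∀ G ∈ 𝒢, G ⊆ H)
      (hdense : H ⊆ closure (⋃₀ 𝒢)) : HaarClass mul ldiv e H

theorem haarClass_closedSubloop {L : Type u} [TopologicalSpace L] {mul ldiv : L → L → L} {e : L}
    {H : Set L} (h : HaarClass mul ldiv e H) : ClosedSubloop mul ldiv e H := by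
  cases h <;> assumption

theorem haarClass_integral {L : Type u} [TopologicalSpace L] [CompactSpace L] [T2Space L]
    {mul ldiv rdiv : L → L → L} {e : L} (h : IsMoufang mul ldiv rdiv e)
    (hmul : Continuous (fun p : L × L => mul p.1 p.2))
    (hldiv : Continuous (fun p : L × L => ldiv p.1 p.2))
    (hrdiv : Continuous (fun p : L × L => rdiv p.1 p.2)) {H : Set L}
    (hc : HaarClass mul ldiv e H) : HasInvariantIntegralOn mul H := by
  induction hc with
  | subgroup H hH hass => exact t26 L mul ldiv rdiv e h hmul hldiv H hH hass
  | nonsingular H hH hn => exact p36 t02 L mul ldiv rdiv e h hmul hldiv hrdiv H hH hn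
  | generated H hH E hE hEH hgen ih =>
    exact p36 t02 L mul ldiv rdiv e h hmul hldiv hrdiv H hH (t37 L mul ldiv e hmul H hH E
      (fun j => ⟨(haarClass_closedSubloop (hE j)).closed, hEH j,
        (haarClass_closedSubloop (hE j)).mul_mem, ih j⟩) (fun A _ hA1 hA2 => hgen A hA1 hA2))
  | directed H hH 𝒢 hne hdir h𝒢 hGH hdense ih =>
    exact t25 t01 L mul hmul H 𝒢 hH.closed hH.mul_mem hne hdir
      (fun G hG => ⟨(haarClass_closedSubloop (h𝒢 G hG)).closed, hGH G hG,
        (haarClass_closedSubloop (h𝒢 G hG)).mul_mem, ih G hG⟩) hdense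

/-- **Haar integral on compact Moufang loops.** Let `L` be a compact Moufang loop whose identity component
belongs to the class `HaarClass` (for example: the identity component is generated by countably many closed
subgroups, or is a limit of loops generated by countably many closed subgroups, or carries a probability
whose non-singular left translations generate it). Then `L` has an invariant integral. -/
theorem result (L : Type u) [TopologicalSpace L] [CompactSpace L] [T2Space L]
    (mul ldiv rdiv : L → L → L) (e : L)
    (h1 : ∀ x, mul e x = x) (h2 : ∀ x, mul x e = x)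
    (h3 : ∀ x y, mul x (ldiv x y) = y) (h4 : ∀ x y, ldiv x (mul x y) = y)
    (h5 : ∀ x y, mul (rdiv y x) x = y) (h6 : ∀ x y, rdiv (mul y x) x = y)
    (h7 : ∀ x y z, mul z (mul x (mul z y)) = mul (mul (mul z x) z) y)
    (hmul : Continuous (fun p : L × L => mul p.1 p.2))
    (hldiv : Continuous (fun p : L × L => ldiv p.1 p.2))
    (hrdiv : Continuous (fun p : L × L => rdiv p.1 p.2)) :
    HaarClass mul ldiv e (connectedComponent e) → HasInvariantIntegral mul := by
  have h : IsMoufang mul ldiv rdiv e := ⟨h1, h2, h3, h4, h5, h6, h7⟩
  exact fun hc => t27 L mul ldiv rdiv e h hmul hldiv (haarClass_integral h hmul hldiv hrdiv hc)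

end Pool.Agent.Results.MP_fd6bc6_al.GeneratedComponent
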